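import Mathlib

/-!
Weierstrass zeta and sigma functions of a period lattice: basic construction.
-/

open Module Filter
open scoped Topology Nat

noncomputable section

namespace H667R3

/-- The Weierstrass elementary factor `E₂(u) = (1-u) exp(u + u²/2)`. -/
def E2 (u : ℂ) : ℂ := (1 - u) * Complex.exp (u + u ^ 2 / 2)

lemma hasDerivAt_E2 (u : ℂ) :
    HasDerivAt E2 (-(u ^ 2) * Complex.exp (u + u ^ 2 / 2)) u := by
  have h1 : HasDerivAt (fun u : ℂ => 1 - u) (-1) u := by
    simpa using (hasDerivAt_id u).const_sub 1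
  have h2 : HasDerivAt (fun u : ℂ => u + u ^ 2 / 2) (1 + u) u := by
    have := (hasDerivAt_id u).add (((hasDerivAt_id u).pow 2).div_const 2)
    refine this.congr_deriv ?_
    simp
  have h3 := h1.mul h2.cexp
  refine h3.congr_deriv ?_
  ring

lemma differentiable_E2 : Differentiable ℂ E2 := fun u => (hasDerivAt_E2 u).differentiableAt

@[simp] lemma E2_zero : E2 0 = 1 := by simp [E2]

lemma norm_E2_sub_one_le (u : ℂ) (hu : ‖u‖ ≤ 1) : ‖E2 u - 1‖ ≤ 5 * ‖u‖ ^ 3 := by
  have key : ∀ x ∈ Metric.closedBall (0 : ℂ) ‖u‖, ‖deriv E2 x‖ ≤ 5 * ‖u‖ ^ 2 := by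
    intro x hx
    have hx' : ‖x‖ ≤ ‖u‖ := by simpa using hx
    rw [(hasDerivAt_E2 x).deriv, norm_mul, norm_neg, norm_pow, mul_comm]
    have he : ‖Complex.exp (x + x ^ 2 / 2)‖ ≤ 5 := by
      rw [Complex.norm_exp]
      have : (x + x ^ 2 / 2).re ≤ 3 / 2 := by
        calc (x + x ^ 2 / 2).re ≤ ‖x + x ^ 2 / 2‖ := Complex.re_le_norm _
          _ ≤ ‖x‖ + ‖x ^ 2 / 2‖ := norm_add_le _ _
          _ = ‖x‖ + ‖x‖ ^ 2 / 2 := by simp
          _ ≤ 1 + 1 / 2 := by
            have : ‖x‖ ≤ 1 := hx'.trans hu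
            nlinarith [norm_nonneg x]
          _ = 3 / 2 := by norm_num
      calc Real.exp (x + x ^ 2 / 2).re ≤ Real.exp (3 / 2) := Real.exp_le_exp.mpr this
        _ ≤ 5 := by
          have h1 := Real.exp_one_lt_d9
          have h2 : Real.exp (3 / 2) ^ 2 = Real.exp 1 ^ 3 := by
            rw [← Real.exp_nat_mul, ← Real.exp_nat_mul]; norm_num
          have h3 : Real.exp 1 ^ 3 ≤ 25 := by
            calc Real.exp 1 ^ 3 ≤ (2.7182818286 : ℝ) ^ 3 := by
                  gcongr
              _ ≤ 25 := by norm_num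
          nlinarith [Real.exp_pos (3 / 2 : ℝ)]
    gcongr
  have := (convex_closedBall (0 : ℂ) ‖u‖).norm_image_sub_le_of_norm_deriv_le
    (fun x _ => (hasDerivAt_E2 x).differentiableAt) key
    (x := 0) (y := u) (by simp) (by simp)
  simpa [pow_succ, mul_assoc] using this

variable (L : PeriodPair)

/-- Weierstrass zeta function: `ζ(z) = ∑_{l ∈ Λ} (1/(z-l) + 1/l + z/l²)`, where for `l = 0` the
summand is `1/z` (in Lean `1/0 = 0`). -/
def zeta (z : ℂ) : ℂ := ∑' l : L.lattice, (1 / (z - l) + 1 / l + z / l ^ 2)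

/-- Weierstrass sigma function:
`σ(z) = z ∏_{l ∈ Λ, l ≠ 0} (1 - z/l) exp (z/l + z²/(2l²))`
(the factor for `l = 0` is `1` since in Lean `z/0 = 0`). -/
def sigma (z : ℂ) : ℂ :=
  z * ∏' l : L.lattice, ((1 - z / l) * Complex.exp (z / l + (z / l) ^ 2 / 2))

lemma sigma_eq (z : ℂ) : sigma L z = z * ∏' l : L.lattice, E2 (z / l) := rfl

lemma summable_inv_cube : Summable (fun l : L.lattice => ‖(l : ℂ)‖ ^ (-3 : ℝ)) := by
  have := ZLattice.summable_norm_rpow L.lattice (-3 : ℝ) (by simp; norm_num)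
  simpa using! this

lemma summable_inv_cube' : Summable (fun l : L.lattice => (‖(l : ℂ)‖ ^ 3)⁻¹) := by
  have := summable_inv_cube L
  refine this.congr fun l => ?_
  rw [Real.rpow_neg (norm_nonneg _)]
  norm_cast

lemma eventually_norm_ge (R : ℝ) : ∀ᶠ l : L.lattice in cofinite, R ≤ ‖(l : ℂ)‖ := by
  have h : (Metric.closedBall (0 : L.lattice) R).Finite :=
    isCompact_iff_finite.mp (isCompact_closedBall (0 : L.lattice) R)
  refine (h.subset ?_)
  intro l hl
  simp only [Set.mem_compl_iff, Set.mem_ofPred_eq, not_le] at hl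
  simpa using hl.le

lemma norm_E2_div_sub_one_le {R : ℝ} (hR : 0 < R) (l : L.lattice) (hl : R ≤ ‖(l : ℂ)‖) (z : ℂ)
    (hz : ‖z‖ ≤ R) : ‖E2 (z / l) - 1‖ ≤ 5 * R ^ 3 * (‖(l : ℂ)‖ ^ 3)⁻¹ := by
  have hl0 : 0 < ‖(l : ℂ)‖ := hR.trans_le hl
  have h1 : ‖z / (l : ℂ)‖ ≤ 1 := by
    rw [norm_div, div_le_one hl0]; exact hz.trans hl
  refine (norm_E2_sub_one_le _ h1).trans ?_
  rw [norm_div, div_pow, mul_assoc, div_eq_mul_inv]
  gcongr

lemma hasProdUniformlyOn_E2 (R : ℝ) (hR : 0 < R) :
    HasProdUniformlyOn (fun (l : L.lattice) z => E2 (z / l)) (fun z => ∏' l : L.lattice, E2 (z / l))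
      (Metric.closedBall 0 R) := by
  have h := Summable.hasProdUniformlyOn_one_add (R := ℂ) (f := fun (l : L.lattice) z => E2 (z / l) - 1)
    (K := Metric.closedBall (0 : ℂ) R) (u := fun l : L.lattice => 5 * R ^ 3 * (‖(l : ℂ)‖ ^ 3)⁻¹)
    (isCompact_closedBall _ _) ((summable_inv_cube' L).mul_left _)
    ?_ ?_
  · simpa using h
  · filter_upwards [eventually_norm_ge L R] with l hl z hz
    exact norm_E2_div_sub_one_le L hR l hl z (by simpa using hz)
  · intro l
    exact ((differentiable_E2.continuous.comp (continuous_id.div_const _)).sub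
      continuous_const).continuousOn

lemma hasProdLocallyUniformlyOn_E2 :
    HasProdLocallyUniformlyOn (fun (l : L.lattice) z => E2 (z / l))
      (fun z => ∏' l : L.lattice, E2 (z / l)) Set.univ := by
  apply hasProdLocallyUniformlyOn_of_forall_compact isOpen_univ
  intro K _ hK
  obtain ⟨R, hR⟩ := hK.isBounded.subset_closedBall 0
  have h := hasProdUniformlyOn_E2 L (max R 1) (by positivity)
  exact h.mono (hR.trans (Metric.closedBall_subset_closedBall (le_max_left _ _)))

lemma differentiable_prodE2 : Differentiable ℂ (fun z => ∏' l : L.lattice, E2 (z / l)) := by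
  have h := (hasProdLocallyUniformlyOn_E2 L).differentiableOn (.of_forall fun s ↦ ?_) isOpen_univ
  · exact differentiableOn_univ.mp h
  · refine DifferentiableOn.fun_finsetProd fun i hi => ?_
    exact (differentiable_E2.comp (differentiable_id.div_const _)).differentiableOn

lemma differentiable_sigma : Differentiable ℂ (sigma L) :=
  differentiable_id.mul (differentiable_prodE2 L)

end H667R3
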