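import Pool.Agent.H73.G.R8.H667R3.W5

open Module Filter
open scoped Topology Nat PeriodPair

noncomputable section

namespace H667R3

open Complex (I)


variable {L : PeriodPair}

lemma wp'_half_eq_zero (L : PeriodPair) {w : ℂ} (hw : w ∈ L.lattice) : ℘'[L] (w / 2) = 0 := by
  have h1 := L.derivWeierstrassP_add_coe (-(w / 2)) ⟨w, hw⟩
  have h2 := L.derivWeierstrassP_neg (w / 2)
  have h3 : -(w / 2) + w = w / 2 := by ring
  simp only [h3] at h1
  rw [h2] at h1
  have : (2 : ℂ) * ℘'[L] (w / 2) = 0 := by linear_combination h1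
  simpa using this

lemma half_add_half_notMem (L : PeriodPair) : L.ω₁ / 2 + L.ω₂ / 2 ∉ L.lattice := by
  have := (L.mul_ω₁_add_mul_ω₂_mem_lattice (α := 1 / 2) (β := 1 / 2)).not.mpr (by norm_num)
  intro h
  apply this
  convert h using 1
  push_cast
  ring

lemma half_sub_half_notMem (L : PeriodPair) : L.ω₁ / 2 - L.ω₂ / 2 ∉ L.lattice := by
  have := (L.mul_ω₁_add_mul_ω₂_mem_lattice (α := 1 / 2) (β := -1 / 2)).not.mpr (by norm_num)
  intro h
  apply this
  convert h using 1
  push_cast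
  ring

/-- surjectivity of `℘` -/
lemma exists_wp_eq (L : PeriodPair) (v : ℂ) : ∃ z, z ∉ L.lattice ∧ ℘[L] z = v := by
  by_contra hcon
  push Not at hcon
  have hne : ∀ z, z ∉ L.lattice → ℘[L] z - v ≠ 0 := fun z hz => sub_ne_zero.mpr (hcon z hz)
  have hG := eq_of_periodic L (fun z => (℘[L] z - v)⁻¹) ?_ ?_
    (fun z => z ^ 2 / (1 + z ^ 2 * (℘[L - (0 : ℂ)] z - v))) ?_ ?_
  · -- then ℘ is constant
    have h4 : (2 : ℂ) * (L.ω₁ / 4) ∉ L.lattice := by
      have := L.ω₁_div_two_notMem_lattice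
      rwa [show (2 : ℂ) * (L.ω₁ / 4) = L.ω₁ / 2 by ring]
    have h4' := two_mul_notMem_of L h4
    have hconst : ∀ z, z ∉ L.lattice → ℘[L] z = ℘[L] (L.ω₁ / 4) := by
      intro z hz
      have := hG z _ hz h4'
      have h5 := inv_injective this
      linear_combination h5
    have hd := (hasDerivAt_weierstrassP L h4')
    have hd2 : HasDerivAt ℘[L] 0 (L.ω₁ / 4) := by
      refine (hasDerivAt_const (L.ω₁ / 4) (℘[L] (L.ω₁ / 4))).congr_of_eventuallyEq ?_
      filter_upwards [(isOpen_compl L).mem_nhds h4'] with x hx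
      exact hconst x hx
    exact wp'_ne_zero L h4 (hd.unique hd2)
  · intro z hz
    exact ((hasDerivAt_weierstrassP L hz).differentiableAt.sub_const v).inv (hne z hz)
  · intro z hz l hl
    have := L.weierstrassP_add_coe z ⟨l, hl⟩
    rw [this]
  · refine DifferentiableAt.div (by fun_prop) ?_ (by simp)
    have := (L.analyticAt_weierstrassPExcept 0).differentiableAt
    fun_prop
  · have h1 : ∀ᶠ z in 𝓝[≠] (0 : ℂ), z ∉ L.lattice := by
      filter_upwards [self_mem_nhdsWithin, mem_nhdsWithin_of_mem_nhds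
        (L.compl_lattice_sdiff_singleton_mem_nhds 0)] with w hw hw'
      simp_all
    filter_upwards [h1, self_mem_nhdsWithin] with z hz hz0
    have hz0' : z ≠ 0 := hz0
    have e2 : ℘[L] z = ℘[L - (0 : ℂ)] z + 1 / z ^ 2 := by
      have := L.weierstrassPExcept_add (0 : L.lattice) z
      simp at this
      rw [← this]; simp
    have h3 := hne z hz
    rw [e2] at h3 ⊢
    have h4 : ℘[L - (0 : ℂ)] z + 1 / z ^ 2 - v = (1 + z ^ 2 * (℘[L - (0 : ℂ)] z - v)) / z ^ 2 := by
      field_simp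
      ring
    rw [h4, inv_div]

end H667R3
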