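import Pool.Agent.H73.G.R8.H667R3.W6

open Module Filter
open scoped Topology Nat PeriodPair

noncomputable section

namespace H667R3

open Complex (I)

variable {c : ℂ} {hc : c ≠ 0}

lemma Pi'_ne_zero {L : PeriodPair} {z : ℂ} (hz : z ∉ L.lattice) : Pi' L z ≠ 0 := prodE2_ne_zero L hz

/-- the regularized function `ζ(z) - 1/z` -/
def zreg (L : PeriodPair) (z : ℂ) : ℂ := deriv (Pi' L) z / Pi' L z

lemma zreg_eq {L : PeriodPair} {z : ℂ} (hz : z ∉ L.lattice) : zreg L z = zeta L z - 1 / z := by
  have hz0 : z ≠ 0 := by rintro rfl; exact hz (zero_mem _)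
  have h1 := logDeriv_sigma L hz
  have h2 : sigma L = fun z => z * Pi' L z := rfl
  rw [h2, logDeriv_mul (f := fun z => z) z hz0 (Pi'_ne_zero hz) differentiableAt_id
        ((differentiable_Pi' L) z)] at h1
  have h3 : logDeriv (fun z : ℂ => z) z = 1 / z := by simp [logDeriv]
  rw [h3, logDeriv_apply] at h1
  rw [zreg, ← h1]; ring

lemma differentiableAt_zreg {L : PeriodPair} {z : ℂ} (hz : Pi' L z ≠ 0) :
    DifferentiableAt ℂ (zreg L) z := by
  have h1 : Differentiable ℂ (deriv (Pi' L)) := by
    have := (differentiable_Pi' L).contDiff (n := 2)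
    exact (this.iterate_deriv' 1 1).differentiable (by simp)
  exact (h1 z).div (differentiable_Pi' L z) hz

end H667R3
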